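import Pool.Agent.Helper45.FM.FCF
import Pool.Agent.Helper45.RBC.HERR

/-! # FM: the bound of the curvature in matrix form (TRS) -/

open Complex Metric Set Filter Topology MeasureTheory
open scoped ContDiff ComplexConjugate ComplexOrder Manifold Matrix MatrixOrder

namespace Pool.Agent.Helper45.FM

open Pool.Agent.Helper95.Lin Pool.Agent.Helper16.Abund Pool.Agent.Helper92.Orb
  Pool.Agent.Helper10.SP Pool.Agent.Helper95.RK Pool.Agent.Helper57.HS
  Pool.Agent.Helper15.HS Pool.Agent.Helper10.HS Pool.Agent.Helper15.GS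
  Pool.Agent.Helper82.HB Pool.Agent.Helper18.FM
open Pool.Agent.Helper45.HS (SmM)
open Pool.Agent.Helper45.Stmt (push curvK)

universe u v

variable {n m : ℕ}

theorem sum6 {r q : ℕ} (f : Fin q → Fin q → Fin q → Fin q → Fin r → Fin r → ℂ) :
    (∑ i, ∑ j, ∑ k, ∑ l, ∑ b, ∑ a, f i j k l a b) =
      ∑ a, ∑ b, ∑ i, ∑ j, ∑ k, ∑ l, f i j k l a b := by
  calc (∑ i, ∑ j, ∑ k, ∑ l, ∑ b, ∑ a, f i j k l a b)
      = ∑ i, ∑ j, ∑ k, ∑ l, ∑ a, ∑ b, f i j k l a b := by
        refine Finset.sum_congr rfl fun i _ => Finset.sum_congr rfl fun j _ =>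
          Finset.sum_congr rfl fun k _ => Finset.sum_congr rfl fun l _ => Finset.sum_comm
    _ = ∑ i, ∑ j, ∑ k, ∑ a, ∑ l, ∑ b, f i j k l a b := by
        refine Finset.sum_congr rfl fun i _ => Finset.sum_congr rfl fun j _ =>
          Finset.sum_congr rfl fun k _ => Finset.sum_comm
    _ = ∑ i, ∑ j, ∑ a, ∑ k, ∑ l, ∑ b, f i j k l a b := by
        refine Finset.sum_congr rfl fun i _ => Finset.sum_congr rfl fun j _ => Finset.sum_comm
    _ = ∑ i, ∑ a, ∑ j, ∑ k, ∑ l, ∑ b, f i j k l a b := by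
        refine Finset.sum_congr rfl fun i _ => Finset.sum_comm
    _ = ∑ a, ∑ i, ∑ j, ∑ k, ∑ l, ∑ b, f i j k l a b := Finset.sum_comm
    _ = ∑ a, ∑ i, ∑ j, ∑ k, ∑ b, ∑ l, f i j k l a b := by
        refine Finset.sum_congr rfl fun a _ => Finset.sum_congr rfl fun i _ =>
          Finset.sum_congr rfl fun j _ => Finset.sum_congr rfl fun k _ => Finset.sum_comm
    _ = ∑ a, ∑ i, ∑ j, ∑ b, ∑ k, ∑ l, f i j k l a b := by
        refine Finset.sum_congr rfl fun a _ => Finset.sum_congr rfl fun i _ =>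
          Finset.sum_congr rfl fun j _ => Finset.sum_comm
    _ = ∑ a, ∑ i, ∑ b, ∑ j, ∑ k, ∑ l, f i j k l a b := by
        refine Finset.sum_congr rfl fun a _ => Finset.sum_congr rfl fun i _ =>
          Finset.sum_comm
    _ = ∑ a, ∑ b, ∑ i, ∑ j, ∑ k, ∑ l, f i j k l a b := by
        refine Finset.sum_congr rfl fun a _ => Finset.sum_comm

/-- The curvature paired with `Bᴴ B`. -/
theorem crvP_BB {r q : ℕ} (H : Cn q → Matrix (Fin q) (Fin q) ℂ) (B : Matrix (Fin r) (Fin q) ℂ)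
    (x : Cn q) : crvP H (Bᴴ * B) (Bᴴ * B) x =
      ∑ a, ∑ b, ∑ i, ∑ j, ∑ k, ∑ l, crv H x i j k l * B a i * conj (B a j) * B b k *
        conj (B b l) := by
  unfold crvP
  simp only [Matrix.mul_apply, Matrix.conjTranspose_apply, Finset.sum_mul, Finset.mul_sum]
  rw [sum6]
  refine Finset.sum_congr rfl fun a _ => Finset.sum_congr rfl fun b _ =>
    Finset.sum_congr rfl fun i _ => Finset.sum_congr rfl fun j _ =>
    Finset.sum_congr rfl fun k _ => Finset.sum_congr rfl fun l _ => ?_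
  simp only [Complex.star_def]
  ring

theorem tr_BB {r q : ℕ} (L N : Matrix (Fin q) (Fin q) ℂ) (B : Matrix (Fin r) (Fin q) ℂ) :
    (∑ a, ∑ b, hermi L (B a) (B b) * hermi N (B b) (B a)) =
      Matrix.trace (L * (Bᴴ * B) * N * (Bᴴ * B)) := by
  have hbc : ∀ (A : Matrix (Fin q) (Fin q) ℂ) (a b : Fin r),
      hermi A (B a) (B b) = (B * A * Bᴴ) a b := by
    intro A a b
    unfold hermi
    rw [Matrix.mul_apply]
    simp only [Matrix.mul_apply, Matrix.conjTranspose_apply, Complex.star_def, Finset.sum_mul]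
    rw [Finset.sum_comm]
    refine Finset.sum_congr rfl fun j _ => Finset.sum_congr rfl fun i _ => by ring
  have h2 : (∑ a, ∑ b, hermi L (B a) (B b) * hermi N (B b) (B a)) =
      Matrix.trace ((B * L * Bᴴ) * (B * N * Bᴴ)) := by
    unfold Matrix.trace
    simp only [Matrix.diag_apply, Matrix.mul_apply (M := B * L * Bᴴ), hbc]
  rw [h2]
  calc Matrix.trace ((B * L * Bᴴ) * (B * N * Bᴴ))
      = Matrix.trace (B * (L * (Bᴴ * B) * N * Bᴴ)) := by
        simp only [Matrix.mul_assoc]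
    _ = Matrix.trace ((L * (Bᴴ * B) * N * Bᴴ) * B) := Matrix.trace_mul_comm _ _
    _ = _ := by simp only [Matrix.mul_assoc]

/-- The curvature term in terms of the curvature of the target. -/
theorem nkk_eq {T : Set (Cn n)} {σ : Cn n → Matrix (Fin n) (Fin m) ℂ}
    {h : Cn n → Matrix (Fin m) (Fin m) ℂ} {Γ : Fin m → Cn n → Matrix (Fin m) (Fin m) ℂ}
    {C : Fin m → Fin m → Cn n → Matrix (Fin m) (Fin m) ℂ} (hC : CF T σ h Γ C) {x : Cn n}
    (hx : x ∈ T) (K : Matrix (Fin n) (Fin n) ℂ) :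
    NKK σ h K x = CRV h C ((σ x)ᴴ * K * σ x) x := by
  unfold NKK CRV
  congr 1
  have h1 : ∀ k l, Matrix.trace (σ x * (RE h k l x * h x) * (σ x)ᴴ * K) =
      ∑ a, ∑ b, (σ x k a * conj (σ x l b)) *
        Matrix.trace (C a b x * h x * ((σ x)ᴴ * K * σ x)) := by
    intro k l
    have h2 : ∀ A : Matrix (Fin m) (Fin m) ℂ, Matrix.trace (σ x * (A * h x) * (σ x)ᴴ * K) =
        Matrix.trace (A * h x * ((σ x)ᴴ * K * σ x)) := by
      intro A
      calc Matrix.trace (σ x * (A * h x) * (σ x)ᴴ * K)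
          = Matrix.trace (σ x * (A * h x * (σ x)ᴴ * K)) := by simp only [Matrix.mul_assoc]
        _ = Matrix.trace (A * h x * (σ x)ᴴ * K * σ x) := Matrix.trace_mul_comm _ _
        _ = _ := by simp only [Matrix.mul_assoc]
    rw [h2, hC.cur x hx k l]
    simp only [Finset.sum_mul, Matrix.trace_sum, Matrix.smul_mul, Matrix.trace_smul, smul_eq_mul]
  have h3 : ∀ a b, ((σ x)ᴴ * K * σ x) b a = ∑ k, ∑ l, K l k * (σ x k a * conj (σ x l b)) := by
    intro a b
    rw [Matrix.mul_apply]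
    simp only [Matrix.mul_apply, Matrix.conjTranspose_apply, Complex.star_def, Finset.sum_mul]
    refine Finset.sum_congr rfl fun k _ => Finset.sum_congr rfl fun l _ => by ring
  simp only [h1, h3, Finset.mul_sum, Finset.sum_mul]
  calc (∑ k, ∑ l, ∑ a, ∑ b, K l k * (σ x k a * conj (σ x l b) *
        Matrix.trace (C a b x * h x * ((σ x)ᴴ * K * σ x))))
      = ∑ k, ∑ a, ∑ l, ∑ b, K l k * (σ x k a * conj (σ x l b) *
        Matrix.trace (C a b x * h x * ((σ x)ᴴ * K * σ x))) :=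
        Finset.sum_congr rfl fun k _ => Finset.sum_comm
    _ = ∑ a, ∑ k, ∑ l, ∑ b, K l k * (σ x k a * conj (σ x l b) *
        Matrix.trace (C a b x * h x * ((σ x)ᴴ * K * σ x))) := Finset.sum_comm
    _ = ∑ a, ∑ k, ∑ b, ∑ l, K l k * (σ x k a * conj (σ x l b) *
        Matrix.trace (C a b x * h x * ((σ x)ᴴ * K * σ x))) :=
        Finset.sum_congr rfl fun a _ => Finset.sum_congr rfl fun k _ => Finset.sum_comm
    _ = ∑ a, ∑ b, ∑ k, ∑ l, K l k * (σ x k a * conj (σ x l b) *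
        Matrix.trace (C a b x * h x * ((σ x)ᴴ * K * σ x))) :=
        Finset.sum_congr rfl fun a _ => Finset.sum_comm
    _ = _ := by
        refine Finset.sum_congr rfl fun a _ => Finset.sum_congr rfl fun b _ =>
          Finset.sum_congr rfl fun k _ => Finset.sum_congr rfl fun l _ => by ring

/-- `CRV` is minus the curvature of the target. -/
theorem crv_eq {V : Set (Cn m)} (hV : IsOpen V) {hN : Cn m → Matrix (Fin m) (Fin m) ℂ}
    (hp : ∀ y ∈ V, (hN y).PosDef) (hs : SmM hN V) {F : Cn n → Cn m} {x : Cn n} (hx : F x ∈ V)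
    (Y : Matrix (Fin m) (Fin m) ℂ) :
    CRV (fun y => hN (F y)) (fun a b y => RE hN a b (F y)) Y x = - (crvP hN Y Y (F x)).re := by
  unfold CRV crvP
  rw [← Complex.neg_re]
  congr 1
  have h1 : ∀ i j k l, crv hN (F x) i j k l = - (RE hN k l (F x) * hN (F x)) i j := by
    intro i j k l
    rw [← Pool.Agent.Helper45.RBC.curv_eq]
    exact curvE_m hV hs hp hx i j k l
  simp only [h1, Matrix.trace, Matrix.diag_apply, Matrix.mul_apply (N := Y), Finset.mul_sum,
    ← Finset.sum_neg_distrib]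
  calc (∑ a, ∑ b, ∑ i, ∑ j, Y b a * ((RE hN a b (F x) * hN (F x)) i j * Y j i))
      = ∑ a, ∑ i, ∑ b, ∑ j, Y b a * ((RE hN a b (F x) * hN (F x)) i j * Y j i) :=
        Finset.sum_congr rfl fun a _ => Finset.sum_comm
    _ = ∑ i, ∑ a, ∑ b, ∑ j, Y b a * ((RE hN a b (F x) * hN (F x)) i j * Y j i) := Finset.sum_comm
    _ = ∑ i, ∑ a, ∑ j, ∑ b, Y b a * ((RE hN a b (F x) * hN (F x)) i j * Y j i) :=
        Finset.sum_congr rfl fun i _ => Finset.sum_congr rfl fun a _ => Finset.sum_comm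
    _ = ∑ i, ∑ j, ∑ a, ∑ b, Y b a * ((RE hN a b (F x) * hN (F x)) i j * Y j i) :=
        Finset.sum_congr rfl fun i _ => Finset.sum_comm
    _ = _ := by
        refine Finset.sum_congr rfl fun i _ => Finset.sum_congr rfl fun j _ =>
          Finset.sum_congr rfl fun a _ => Finset.sum_congr rfl fun b _ => by ring
where
  curvE_m {V : Set (Cn m)} (hV : IsOpen V) {hN : Cn m → Matrix (Fin m) (Fin m) ℂ}
      (hs : SmM hN V) (hp : ∀ y ∈ V, (hN y).PosDef) {y : Cn m} (hy : y ∈ V) (i j k l : Fin m) :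
      Pool.Agent.Helper10.Stmt.curv hN y i j k l = - (RE hN k l y * hN y) i j :=
    Pool.Agent.Helper45.HB.curvE_eq hV hs hp hy i j k l

section

variable {M : Type v} [TopologicalSpace M] [ChartedSpace (Fin n → ℂ) M]
  {g : M → Matrix (Fin n) (Fin n) ℂ} {v : M → ℝ} {c : ℝ} {T : Set (Cn n)} {E : Cn n → M}
  {V : Set (Cn m)} {F : Cn n → Cn m} {hN : Cn m → Matrix (Fin m) (Fin m) ℂ}

/-- The bound in matrix form. -/
theorem trs_of (hL : LocF g v c T E V F hN) :
    TRS T (sg F) (fun y => hN (F y)) (fun x => (c : ℂ) • LM (lpot n v E) x) := by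
  intro x hx K hK
  obtain ⟨B, hB⟩ : ∃ B : Matrix (Fin n) (Fin n) ℂ, K = Bᴴ * B := by
    exact CStarAlgebra.nonneg_iff_eq_star_mul_self.mp hK.nonneg
  have hC := cf_of hL.par.1.1 hL.opn hL.holo hL.maps hL.posDef hL.smooth
  have h1 := hL.bnd x hx n (fun a => B a)
  have hY : (sg F x)ᴴ * K * sg F x = (B * sg F x)ᴴ * (B * sg F x) := by
    rw [hB, Matrix.conjTranspose_mul]
    simp only [Matrix.mul_assoc]
  have hrow : ∀ a i, push F x (B a) i = (B * sg F x) a i := by
    intro a i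
    rw [push_eq]
    rfl
  rw [nkk_eq hC hx K, crv_eq hL.opn hL.posDef hL.smooth (hL.maps hx), hY, crvP_BB]
  have h2 : (∑ a, ∑ b, ∑ i, ∑ j, ∑ k, ∑ l, Pool.Agent.Helper10.Stmt.curv hN (F x) i j k l *
      push F x (B a) i * conj (push F x (B a) j) * push F x (B b) k *
        conj (push F x (B b) l)) = ∑ a, ∑ b, ∑ i, ∑ j, ∑ k, ∑ l, crv hN (F x) i j k l *
      (B * sg F x) a i * conj ((B * sg F x) a j) * (B * sg F x) b k *
        conj ((B * sg F x) b l) := by
    simp only [hrow, Pool.Agent.Helper45.RBC.curv_eq]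
  have h3 : (∑ a, ∑ b, hermi (curvK n v E x) (B a) (B b) * hermi (pm n g E x) (B b) (B a)) =
      Matrix.trace (LM (lpot n v E) x * K * gS (sg F) (fun y => hN (F y)) x * K) := by
    rw [tr_BB (curvK n v E x) (pm n g E x) B, ← hB, pm_gS hL hx]
    rfl
  rw [h2, h3] at h1
  have h4 : (Matrix.trace ((c : ℂ) • LM (lpot n v E) x * K * gS (sg F) (fun y => hN (F y)) x *
      K)).re = c * (Matrix.trace (LM (lpot n v E) x * K * gS (sg F) (fun y => hN (F y)) x *
      K)).re := by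
    rw [Matrix.smul_mul, Matrix.smul_mul, Matrix.smul_mul, Matrix.trace_smul, smul_eq_mul,
      Complex.re_ofReal_mul]
  rw [h4]
  linarith

end

end Pool.Agent.Helper45.FM
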