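import Pool.Agent.Helper18.FM.GoalsC
import Pool.Agent.Helper45.FM.FTRS
import Pool.Agent.Helper45.TRB.TLNK

/-! # FM: the data on the étale relation (FLNK) -/

open Complex Metric Set Filter Topology MeasureTheory
open scoped ContDiff ComplexConjugate ComplexOrder Manifold Matrix MatrixOrder

namespace Pool.Agent.Helper45.FM

open Pool.Agent.Helper95.Lin Pool.Agent.Helper16.Abund Pool.Agent.Helper92.Orb
  Pool.Agent.Helper10.SP Pool.Agent.Helper95.RK Pool.Agent.Helper57.HS
  Pool.Agent.Helper15.HS Pool.Agent.Helper10.HS Pool.Agent.Helper15.GS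
  Pool.Agent.Helper82.HB Pool.Agent.Helper45.HB Pool.Agent.Helper18.FM
  Pool.Agent.Helper27.TRB Pool.Agent.Helper57.RBC
open Pool.Agent.Helper45.Stmt (PullRBC CurvAddPos)

universe u v

/-- FLK. The data on the étale relation. -/
theorem flk (hPAR : S_PARH.{u, v}) (hKET : S_KETH.{u, v}) (hDET : S_DETI.{u}) (hLMF : S_LMF)
    (hWIRT : S_WIRT) (hRHOI : S_RHOI.{u}) (hRHB : S_RHB.{u}) : S_FLK.{u, v} := by
  intro n m G M _ _ _ _ _ _ _ om g hn hD hgi v hv hvi c hc hsem hpos T E σ h hE hC hσ hh hhs hgE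
    htrs
  obtain ⟨hK, -⟩ := hKET hD T E hE hC
  have hTo : IsOpen T := hE.1.1
  have hpsi := Pool.Agent.Helper45.TRB.psi_inv hPAR hKET hDET hD v hv hvi T E hE hC
  have hls : ContDiffOn ℝ ∞ (lpot n v E) T := hv.2 T E hE
  obtain ⟨d1, d2, -⟩ := hDET T _ _ hK
  have hlds : ContDiffOn ℝ ∞ (ld (pm n om E)) T := d2.log fun x hx => (d1 x hx).2.1.ne'
  obtain ⟨l1, l2, l3, l4⟩ := hLMF T hTo (lpot n v E) hls
  have hherK : HerT T (RelT (G := G) T E) (pm n om E) := ⟨hK.posDef, hK.smooth, hK.inv⟩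
  obtain ⟨r1, r2, r3, r4, r5⟩ := hRHOI T (RelT (G := G) T E) (pm n om E) hK.et hherK
  obtain ⟨r6, r7⟩ := r4 _ hpsi
  have hL' : ∀ x ∈ T, LM (lpot n v E) x = rho (pm n om E) x +
      LM (fun y => lpot n v E y - ld (pm n om E) y) x := by
    intro x hx
    have h1 : LM (fun y => ld (pm n om E) y + (lpot n v E y - ld (pm n om E) y)) x =
        LM (ld (pm n om E)) x + LM (fun y => lpot n v E y - ld (pm n om E) y) x :=
      Pool.Agent.Helper56.HS.LM_add hWIRT hTo hlds (hls.sub hlds) hx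
    show _ = LM (ld (pm n om E)) x + LM (fun y => lpot n v E y - ld (pm n om E) y) x
    rw [← h1]
    congr 1
    funext y
    ring
  have hadd : ∀ (A B : Matrix (Fin n) (Fin n) ℂ) (p q : Fin n → ℂ),
      hermi (A + B) p q = hermi A p q + hermi B p q := by
    intro A B p q
    unfold hermi
    simp only [Matrix.add_apply, add_mul, Finset.sum_add_distrib]
  have hsmul : ∀ (t : ℂ) (B : Matrix (Fin n) (Fin n) ℂ) (p q : Fin n → ℂ),
      hermi (t • B) p q = t * hermi B p q := by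
    intro t B p q
    unfold hermi
    simp only [Matrix.smul_apply, smul_eq_mul, Finset.mul_sum]
    refine Finset.sum_congr rfl fun i _ => Finset.sum_congr rfl fun j _ => by ring
  -- invariance of the forms
  have hinvL : InvH (RelT (G := G) T E) fun x => (c : ℂ) • LM (lpot n v E) x := by
    intro U τ hA x hx a b
    obtain ⟨hU, hτ, γ, hγ⟩ := hA
    have hxT := (hγ x hx).1
    have hτT := (hγ x hx).2.1
    have hA' : Arr (RelT (G := G) T E) U τ := ⟨hU, hτ, γ, hγ⟩
    show hermi ((c : ℂ) • LM (lpot n v E) (τ x)) _ _ =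
      hermi ((c : ℂ) • LM (lpot n v E) x) _ _
    rw [hsmul, hsmul, hL' _ hτT, hL' _ hxT, hadd, hadd, r2 U τ hA' x hx a b,
      r7 U τ hA' x hx a b]
  have hinvY : InvH (RelT (G := G) T E) fun x => (2 : ℂ) • ((c : ℂ) • LM (lpot n v E) x) := by
    intro U τ hA x hx a b
    show hermi ((2 : ℂ) • ((c : ℂ) • LM (lpot n v E) (τ x))) _ _ =
      hermi ((2 : ℂ) • ((c : ℂ) • LM (lpot n v E) x)) _ _
    rw [hsmul 2, hsmul 2, hinvL U τ hA x hx a b]
  have hEat : ∀ z ∈ T, MDifferentiableAt 𝓘(ℂ, Fin n → ℂ) 𝓘(ℂ, Fin n → ℂ) E z := fun z hz =>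
    hE.1.2.mdifferentiableAt (hTo.mem_nhds hz)
  have hinvG : InvH (RelT (G := G) T E) (gS σ h) := by
    intro U τ hA x hx u w
    obtain ⟨hU, hτ, γ, hγ⟩ := hA
    have hxT := (hγ x hx).1
    have hτT := (hγ x hx).2.1
    have he := (hγ x hx).2.2
    rw [← hgE _ hτT, ← hgE _ hxT, Pool.Agent.Helper9.RK.hermi_pm,
      Pool.Agent.Helper9.RK.hermi_pm]
    have hda := fun e => dvec_arrow hD hEat hE hU (fun z hz => (hγ z hz).1) hτ
      (fun z hz => (hγ z hz).2.1) (fun z hz => (hγ z hz).2.2) hx e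
    rw [hda u, hda w, ← he]
    exact hgi γ (E x) _ _
  have hsmulH : ∀ (t : ℝ) (B : Matrix (Fin n) (Fin n) ℂ), B.IsHermitian →
      ((t : ℂ) • B).IsHermitian := by
    intro t B hB
    unfold Matrix.IsHermitian
    rw [Matrix.conjTranspose_smul, hB.eq]
    simp
  have hsmc : ∀ i j, ContDiffOn ℝ ∞ (fun x => ((c : ℂ) • LM (lpot n v E) x) i j) T := by
    intro i j
    have h1 : (fun x => ((c : ℂ) • LM (lpot n v E) x) i j) =
        fun x => (c : ℂ) * LM (lpot n v E) x i j := by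
      funext x
      simp [Matrix.smul_apply]
    rw [h1]
    exact contDiffOn_const.mul (l1 i j)
  obtain ⟨K, hK0, hKle⟩ := hRHB T (RelT (G := G) T E) (pm n om E) hK.et hherK
    (fun x => (2 : ℂ) • ((c : ℂ) • LM (lpot n v E) x))
    (fun x hx => by
      have := hsmulH 2 _ (hsmulH c _ (l2 x hx))
      simpa using this)
    (fun i j => by
      have h1 : (fun x => ((2 : ℂ) • ((c : ℂ) • LM (lpot n v E) x)) i j) =
          fun x => (2 : ℂ) * ((c : ℂ) • LM (lpot n v E) x) i j := by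
        funext x
        rw [Matrix.smul_apply, smul_eq_mul]
      rw [h1]
      exact continuousOn_const.mul (hsmc i j).continuousOn) hinvY
  have hrho : ∀ x ∈ T, rho (fun x => (K : ℂ) • pm n om E x) x = rho (pm n om E) x :=
    fun x hx => Pool.Agent.Helper45.TRB.rho_smul hWIRT hK hDET hK0 hx
  have hchi : ∀ x ∈ T, (c : ℂ) • LM (lpot n v E) x =
      (c : ℂ) • (rho (fun x => (K : ℂ) • pm n om E x) x +
        LM (fun y => lpot n v E y - ld (pm n om E) y) x) := by
    intro x hx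
    rw [hrho x hx, hL' x hx]
  refine ⟨K, hK0, Pool.Agent.Helper45.TRB.ket_smul hWIRT hK hK0,
    ⟨hσ, hh, hhs, hinvG⟩,
    hc, hpsi, hchi, ?_, ⟨?_, hsmc, hinvL⟩, fun x hx => (hKle x hx).2, ?_, htrs⟩
  · intro x hx
    rw [hchi x hx, Pool.Agent.Helper8.HS.LM_smul hWIRT hTo (hls.sub hlds) c hx, smul_add]
  · intro x hx
    refine Matrix.PosSemidef.of_dotProduct_mulVec_nonneg (hsmulH c _ (l2 x hx)) fun w => ?_
    have h2 := l3 x hx (star w)
    have h3 : hermi ((c : ℂ) • LM (lpot n v E) x) (star w) (star w) =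
        star w ⬝ᵥ (((c : ℂ) • LM (lpot n v E) x) *ᵥ w) := by
      unfold hermi dotProduct Matrix.mulVec dotProduct
      refine Finset.sum_congr rfl fun i _ => ?_
      rw [Finset.mul_sum]
      refine Finset.sum_congr rfl fun j _ => ?_
      simp only [Pi.star_apply, Complex.star_def, Complex.conj_conj]
      ring
    rw [← h3, hsmul, ← h2]
    exact_mod_cast hsem T E hE x hx (star w)
  · intro x hx
    rw [hrho x hx, ← hL' x hx]
    have hgh : (gS σ h x).IsHermitian := by
      unfold gS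
      exact Matrix.isHermitian_mul_mul_conjTranspose (σ x) (hh x hx).isHermitian
    refine Pool.Agent.Helper40.RK.posDef_of_hermi ((l2 x hx).add hgh) fun e he => ?_
    have h2 := hpos T E hE x hx e he
    rw [hadd, Complex.add_re, ← l3 x hx e, Complex.ofReal_re, ← hgE x hx]
    exact h2

/-- FRE. The connection data of a map. -/
theorem fre : S_FRE := by
  intro n m V W F hN hV hW hm hF hp hs
  exact ⟨fun i a => sg_holo hV hF i a, fun a b => smooth_comp hV hF hm (hs a b),
    cf_of hV hW hF hm hp hs⟩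

/-- FUN. Gluing, and the trace bound. -/
theorem fun' (hPAR : S_PARH.{u, v}) : S_FUN.{u, v} := by
  intro n m G M _ _ _ _ _ _ _ om g hn hD v c hv hg
  obtain ⟨T, E, N, F, h, hL, hC⟩ := unif (m := m) hPAR hn hD hg
  exact ⟨T, E, sg F, fun y => h (F y), _, _, hL.par, hC, fun i a => sg_holo hL.par.1.1 hL.holo i a,
    fun x hx => hL.posDef _ (hL.maps hx),
    fun a b => smooth_comp hL.par.1.1 hL.holo hL.maps (hL.smooth a b), fun x hx => pm_gS hL hx,
    cf_of hL.par.1.1 hL.opn hL.holo hL.maps hL.posDef hL.smooth, trs_of hL⟩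

end Pool.Agent.Helper45.FM
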