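import Pool.Agent.Helper45.HB.UNIS
import Pool.Agent.Helper45.Stmt.DefsFM

/-! # FM: UNIF, a parametrization on which `g = F^* h` -/

open Complex Metric Set Filter Topology MeasureTheory
open scoped ContDiff ComplexConjugate ComplexOrder Manifold Matrix

namespace Pool.Agent.Helper45.FM

open Pool.Agent.Helper95.Lin Pool.Agent.Helper16.Abund Pool.Agent.Helper92.Orb
  Pool.Agent.Helper10.SP Pool.Agent.Helper95.RK Pool.Agent.Helper57.HS
  Pool.Agent.Helper15.HS Pool.Agent.Helper10.HS Pool.Agent.Helper15.GS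
  Pool.Agent.Helper82.HB
open Pool.Agent.Helper45.Stmt (PullRBC CurvAddPos push curvK)
open Pool.Agent.Helper27.SP (par_local)
open Pool.Agent.Helper10.HS.UNIHp (par_shift)

universe u v

variable {n m : ℕ}

/-- The bound of the real bisectional curvature along `F`, at the point `x`. -/
def Bnd {M : Type v} [TopologicalSpace M] [ChartedSpace (Fin n → ℂ) M]
    (g : M → Matrix (Fin n) (Fin n) ℂ) (v : M → ℝ) (c : ℝ) (ψ : Cn n → M) (F : Cn n → Cn m)
    (h : Cn m → Matrix (Fin m) (Fin m) ℂ) (x : Cn n) : Prop :=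
  ∀ (r : ℕ) (u : Fin r → Fin n → ℂ), (∑ a, ∑ b, ∑ i, ∑ j, ∑ k, ∑ l,
      Pool.Agent.Helper10.Stmt.curv h (F x) i j k l * push F x (u a) i * conj (push F x (u a) j) *
        push F x (u b) k * conj (push F x (u b) l)).re ≤
    c * (∑ a, ∑ b, hermi (curvK n v ψ x) (u a) (u b) * hermi (pm n g ψ x) (u b) (u a)).re

theorem Bnd.of_eq {M : Type v} [TopologicalSpace M] [ChartedSpace (Fin n → ℂ) M]
    {g : M → Matrix (Fin n) (Fin n) ℂ} {v : M → ℝ} {c : ℝ} {ψ ψ' : Cn n → M} {F F' : Cn n → Cn m}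
    {h h' : Cn m → Matrix (Fin m) (Fin m) ℂ} {x x' : Cn n} (hb : Bnd g v c ψ F h x)
    (hp : ∀ u, push F' x' u = push F x u)
    (hc : ∀ i j k l, Pool.Agent.Helper10.Stmt.curv h' (F' x') i j k l =
      Pool.Agent.Helper10.Stmt.curv h (F x) i j k l)
    (hk : curvK n v ψ' x' = curvK n v ψ x) (hm : pm n g ψ' x' = pm n g ψ x) :
    Bnd g v c ψ' F' h' x' := by
  intro r u
  have h1 := hb r u
  simp only [hp, hc, hk, hm]
  exact h1

/-- The local data. -/
structure LocF {M : Type v} [TopologicalSpace M] [ChartedSpace (Fin n → ℂ) M]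
    (g : M → Matrix (Fin n) (Fin n) ℂ) (v : M → ℝ) (c : ℝ) (V : Set (Cn n)) (ψ : Cn n → M)
    (N : Set (Cn m)) (F : Cn n → Cn m) (h : Cn m → Matrix (Fin m) (Fin m) ℂ) : Prop where
  par : Par n ψ V
  holo : DifferentiableOn ℂ F V
  opn : IsOpen N
  maps : MapsTo F V N
  posDef : ∀ y ∈ N, (h y).PosDef
  smooth : ∀ a b, ContDiffOn ℝ ∞ (fun y => h y a b) N
  eq : ∀ x ∈ V, ∀ u w, hermi (pm n g ψ x) u w = hermi (h (F x)) (push F x u) (push F x w)
  bnd : ∀ x ∈ V, Bnd g v c ψ F h x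

/-! ## Translations and germs -/

theorem dz_shift (f : Cn m → ℂ) (a x : Cn m) (l : Fin m) :
    Pool.Agent.Helper10.Stmt.dz l (fun y => f (y + a)) x = Pool.Agent.Helper10.Stmt.dz l f (x + a) := by
  unfold Pool.Agent.Helper10.Stmt.dz
  rw [fderiv_comp_add_right]

theorem dzb_shift (f : Cn m → ℂ) (a x : Cn m) (l : Fin m) :
    Pool.Agent.Helper10.Stmt.dzb l (fun y => f (y + a)) x =
      Pool.Agent.Helper10.Stmt.dzb l f (x + a) := by
  unfold Pool.Agent.Helper10.Stmt.dzb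
  rw [fderiv_comp_add_right]

theorem dz_dzb_shift (f : Cn m → ℂ) (a x : Cn m) (k l : Fin m) :
    Pool.Agent.Helper10.Stmt.dz k (Pool.Agent.Helper10.Stmt.dzb l fun y => f (y + a)) x =
      Pool.Agent.Helper10.Stmt.dz k (Pool.Agent.Helper10.Stmt.dzb l f) (x + a) := by
  have h1 : (Pool.Agent.Helper10.Stmt.dzb l fun y => f (y + a)) =
      fun y => Pool.Agent.Helper10.Stmt.dzb l f (y + a) := by
    funext y
    exact dzb_shift f a y l
  rw [h1, dz_shift]

theorem curv_shift (h : Cn m → Matrix (Fin m) (Fin m) ℂ) (a x : Cn m) (i j k l : Fin m) :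
    Pool.Agent.Helper10.Stmt.curv (fun y => h (y + a)) x i j k l =
      Pool.Agent.Helper10.Stmt.curv h (x + a) i j k l := by
  unfold Pool.Agent.Helper10.Stmt.curv
  rw [dz_dzb_shift (fun y => h y i j) a x k l]
  congr 1
  refine Finset.sum_congr rfl fun p _ => Finset.sum_congr rfl fun q _ => ?_
  rw [dz_shift (fun y => h y i p) a x k, dzb_shift (fun y => h y q j) a x l]

theorem dz_congr {f f' : Cn m → ℂ} {x : Cn m} (he : f' =ᶠ[𝓝 x] f) (l : Fin m) :
    Pool.Agent.Helper10.Stmt.dz l f' x = Pool.Agent.Helper10.Stmt.dz l f x := by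
  unfold Pool.Agent.Helper10.Stmt.dz
  rw [he.fderiv_eq]

theorem dzb_congr {f f' : Cn m → ℂ} {x : Cn m} (he : f' =ᶠ[𝓝 x] f) (l : Fin m) :
    Pool.Agent.Helper10.Stmt.dzb l f' x = Pool.Agent.Helper10.Stmt.dzb l f x := by
  unfold Pool.Agent.Helper10.Stmt.dzb
  rw [he.fderiv_eq]

theorem dz_dzb_congr {f f' : Cn m → ℂ} {x : Cn m} (he : f' =ᶠ[𝓝 x] f) (k l : Fin m) :
    Pool.Agent.Helper10.Stmt.dz k (Pool.Agent.Helper10.Stmt.dzb l f') x =
      Pool.Agent.Helper10.Stmt.dz k (Pool.Agent.Helper10.Stmt.dzb l f) x := by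
  refine dz_congr ?_ k
  filter_upwards [he.eventuallyEq_nhds] with y hy using dzb_congr hy l

theorem curv_congr {h h' : Cn m → Matrix (Fin m) (Fin m) ℂ} {N : Set (Cn m)} (hN : IsOpen N)
    (he : ∀ y ∈ N, h' y = h y) {x : Cn m} (hx : x ∈ N) (i j k l : Fin m) :
    Pool.Agent.Helper10.Stmt.curv h' x i j k l = Pool.Agent.Helper10.Stmt.curv h x i j k l := by
  have h1 : ∀ i j, (fun y => h' y i j) =ᶠ[𝓝 x] fun y => h y i j := by
    intro i j
    filter_upwards [hN.mem_nhds hx] with y hy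
    rw [he y hy]
  unfold Pool.Agent.Helper10.Stmt.curv
  rw [dz_dzb_congr (h1 i j)]
  congr 1
  refine Finset.sum_congr rfl fun p _ => Finset.sum_congr rfl fun q _ => ?_
  rw [dz_congr (h1 i p), dzb_congr (h1 q j), he x hx]

section

variable {M : Type v} [TopologicalSpace M] [ChartedSpace (Fin n → ℂ) M]
  {g : M → Matrix (Fin n) (Fin n) ℂ} {v : M → ℝ} {c : ℝ}

theorem curvK_congr' {ψ ψ' : Cn n → M} {x : Cn n}
    (he : (lpot n v ψ') =ᶠ[𝓝 x] lpot n v ψ) : curvK n v ψ' x = curvK n v ψ x := by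
  unfold curvK
  ext j k
  rw [Matrix.of_apply, Matrix.of_apply]
  refine dz_dzb_congr ?_ j k
  filter_upwards [he] with y hy
  exact congrArg (fun t : ℝ => (t : ℂ)) hy

theorem jac_congr {ψ ψ' : Cn n → M} {x : Cn n} (he : ψ' =ᶠ[𝓝 x] ψ) : jac n ψ' x = jac n ψ x := by
  have h4 := he.mfderiv_eq (I := 𝓘(ℂ, Fin n → ℂ)) (I' := 𝓘(ℂ, Fin n → ℂ))
  exact congrArg (fun L : Cn n →L[ℂ] Cn n => L.det) h4

theorem lpot_congr {ψ ψ' : Cn n → M} {V : Set (Cn n)} (hV : IsOpen V) (he : ∀ y ∈ V, ψ' y = ψ y)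
    {x : Cn n} (hx : x ∈ V) : (lpot n v ψ') =ᶠ[𝓝 x] lpot n v ψ := by
  filter_upwards [hV.mem_nhds hx] with y hy
  unfold lpot
  have h1 : ψ' =ᶠ[𝓝 y] ψ := by
    filter_upwards [hV.mem_nhds hy] with z hz using he z hz
  rw [he y hy, jac_congr h1]

theorem jac_shift {V : Set (Cn n)} {ψ : Cn n → M} (hψ : Par n ψ V) (a : Cn n) {x : Cn n}
    (hx : x + a ∈ V) : jac n (ψ ∘ fun y => y + a) x = jac n ψ (x + a) := by
  have hm : MDifferentiableAt 𝓘(ℂ, Fin n → ℂ) 𝓘(ℂ, Fin n → ℂ) ψ (x + a) :=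
    hψ.1.2.mdifferentiableAt (hψ.1.1.mem_nhds hx)
  have hd : ∀ u, dvec n (ψ ∘ fun y => y + a) x u = dvec n ψ (x + a) u := by
    intro u
    rw [Pool.Agent.Helper35.RK.dvec_comp_fderiv (φ := fun y => y + a) hm
      (differentiableAt_id.add_const a), fderiv_add_const, fderiv_fun_id]
    rfl
  have h1 : (mfderiv 𝓘(ℂ, Fin n → ℂ) 𝓘(ℂ, Fin n → ℂ) (ψ ∘ fun y => y + a) x : Cn n →L[ℂ] Cn n) =
      (mfderiv 𝓘(ℂ, Fin n → ℂ) 𝓘(ℂ, Fin n → ℂ) ψ (x + a) : Cn n →L[ℂ] Cn n) :=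
    ContinuousLinearMap.ext hd
  exact congrArg (fun L : Cn n →L[ℂ] Cn n => L.det) h1

theorem curvK_shift {V : Set (Cn n)} {ψ : Cn n → M} (hψ : Par n ψ V) (a : Cn n) {x : Cn n}
    (hx : x + a ∈ V) : curvK n v (ψ ∘ fun y => y + a) x = curvK n v ψ (x + a) := by
  have h1 : (lpot n v (ψ ∘ fun y => y + a)) =ᶠ[𝓝 x] fun y => lpot n v ψ (y + a) := by
    have h2 : ∀ᶠ y in 𝓝 x, y + a ∈ V := by
      have : ContinuousAt (fun y : Cn n => y + a) x := (continuous_id.add continuous_const).continuousAt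
      exact this.preimage_mem_nhds (hψ.1.1.mem_nhds hx)
    filter_upwards [h2] with y hy
    unfold lpot
    rw [jac_shift hψ a hy]
    rfl
  unfold curvK
  ext j k
  rw [Matrix.of_apply, Matrix.of_apply]
  have h3 : (fun y => ((Pool.Agent.Helper10.Stmt.lpot n v (ψ ∘ fun y => y + a) y : ℝ) : ℂ)) =ᶠ[𝓝 x]
      fun y => (fun z => ((Pool.Agent.Helper10.Stmt.lpot n v ψ z : ℝ) : ℂ)) (y + a) := by
    filter_upwards [h1] with y hy
    exact congrArg (fun t : ℝ => (t : ℂ)) hy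
  rw [dz_dzb_congr h3, dz_dzb_shift (fun z => ((Pool.Agent.Helper10.Stmt.lpot n v ψ z : ℝ) : ℂ))]

theorem push_shift (F : Cn n → Cn m) (a : Cn n) (d : Cn m) (x u : Cn n) :
    push (fun y => F (y + a) + d) x u = push F (x + a) u := by
  unfold push
  have h1 : fderiv ℂ (fun y => F (y + a) + d) x = fderiv ℂ F (x + a) := by
    rw [fderiv_add_const]
    exact fderiv_comp_add_right a
  rw [h1]

theorem push_congr {F F' : Cn n → Cn m} {V : Set (Cn n)} (hV : IsOpen V) (he : ∀ y ∈ V, F' y = F y)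
    {x : Cn n} (hx : x ∈ V) (u : Cn n) : push F' x u = push F x u := by
  unfold push
  have h1 : F' =ᶠ[𝓝 x] F := by
    filter_upwards [hV.mem_nhds hx] with y hy using he y hy
  rw [h1.fderiv_eq]

theorem LocF.shift {V V' : Set (Cn n)} {ψ : Cn n → M} {N N' : Set (Cn m)} {F : Cn n → Cn m}
    {h : Cn m → Matrix (Fin m) (Fin m) ℂ} (hL : LocF g v c V ψ N F h) (a : Cn n) (d : Cn m)
    (hpar : Par n (ψ ∘ fun y => y + a) V') (hm : MapsTo (fun y => y + a) V' V) (hN' : IsOpen N')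
    (hmN : MapsTo (fun y => y + -d) N' N) (hmF : ∀ x ∈ V', F (x + a) + d ∈ N') :
    LocF g v c V' (ψ ∘ fun y => y + a) N' (fun x => F (x + a) + d) fun y => h (y + -d) where
  par := hpar
  holo := (hL.holo.comp (differentiable_id.add_const a).differentiableOn hm).add_const d
  opn := hN'
  maps := hmF
  posDef := fun y hy => hL.posDef _ (hmN hy)
  smooth := fun b c => (hL.smooth b c).comp (contDiff_id.add contDiff_const).contDiffOn hmN
  eq := fun x hx u w => by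
    rw [Pool.Agent.Helper45.HB.pm_shift hL.par a (hm hx), hL.eq _ (hm hx), push_shift, push_shift,
      add_neg_cancel_right]
  bnd := fun x hx => (hL.bnd _ (hm hx)).of_eq (fun u => push_shift F a d x u)
    (fun i j k l => by
      rw [curv_shift, add_neg_cancel_right])
    (curvK_shift hL.par a (hm hx)) (Pool.Agent.Helper45.HB.pm_shift hL.par a (hm hx))

theorem LocF.congr {V : Set (Cn n)} {ψ ψ' : Cn n → M} {N : Set (Cn m)} {F F' : Cn n → Cn m}
    {h h' : Cn m → Matrix (Fin m) (Fin m) ℂ}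
    (hL : LocF g v c V ψ N F h) (hψ : ∀ y ∈ V, ψ' y = ψ y) (hF : ∀ y ∈ V, F' y = F y)
    (hh : ∀ y ∈ N, h' y = h y) : LocF g v c V ψ' N F' h' := by
  have hV := hL.par.1.1
  have he : ∀ x ∈ V, ψ' =ᶠ[𝓝 x] ψ := fun x hx => by
    filter_upwards [hV.mem_nhds hx] with y hy using hψ y hy
  have hpm : ∀ x ∈ V, pm n g ψ' x = pm n g ψ x := by
    intro x hx
    ext i j
    have h4 := (he x hx).mfderiv_eq (I := 𝓘(ℂ, Fin n → ℂ)) (I' := 𝓘(ℂ, Fin n → ℂ))
    have h2 : ∀ e : Cn n, dvec n ψ' x e = dvec n ψ x e := by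
      intro e
      exact DFunLike.congr_fun (F := (Fin n → ℂ) →L[ℂ] (Fin n → ℂ)) h4 e
    unfold pm
    rw [Matrix.of_apply, Matrix.of_apply, h2, h2, hψ x hx]
  refine ⟨par_local hV fun x hx => ⟨ψ, V, hL.par, hx, he x hx⟩,
    hL.holo.congr hF, hL.opn, fun x hx => ?_, fun y hy => ?_,
    fun a b => (hL.smooth a b).congr fun y hy => by rw [hh y hy], fun x hx u w => ?_,
    fun x hx => ?_⟩
  · rw [hF x hx]
    exact hL.maps hx
  · rw [hh y hy]
    exact hL.posDef y hy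
  · rw [hpm x hx, hL.eq x hx, push_congr hV hF hx, push_congr hV hF hx, hF x hx,
      hh _ (hL.maps hx)]
  · refine (hL.bnd x hx).of_eq (fun u => push_congr hV hF hx u) (fun i j k l => ?_)
      (curvK_congr' (lpot_congr (v := v) hV hψ hx)) (hpm x hx)
    rw [hF x hx]
    exact curv_congr hL.opn hh (hL.maps hx) i j k l

/-- The conditions of `LocF` are local. -/
theorem LocF.union {ι : Type*} {V : ι → Set (Cn n)} {ψ : Cn n → M} {N : ι → Set (Cn m)}
    {F : Cn n → Cn m} {h : Cn m → Matrix (Fin m) (Fin m) ℂ}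
    (hL : ∀ i, LocF g v c (V i) ψ (N i) F h) : LocF g v c (⋃ i, V i) ψ (⋃ i, N i) F h := by
  have hV : ∀ i, IsOpen (V i) := fun i => (hL i).par.1.1
  refine ⟨par_local (isOpen_iUnion hV) fun x hx => ?_, fun x hx => ?_,
    isOpen_iUnion fun i => (hL i).opn, fun x hx => ?_, fun y hy => ?_,
    fun a b y hy => ?_, fun x hx => ?_, fun x hx => ?_⟩
  · obtain ⟨i, hi⟩ := mem_iUnion.1 hx
    exact ⟨ψ, V i, (hL i).par, hi, Filter.EventuallyEq.rfl⟩
  · obtain ⟨j, hj⟩ := mem_iUnion.1 hx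
    exact ((hL j).holo.differentiableAt ((hV j).mem_nhds hj)).differentiableWithinAt
  · obtain ⟨i, hi⟩ := mem_iUnion.1 hx
    exact mem_iUnion.2 ⟨i, (hL i).maps hi⟩
  · obtain ⟨i, hi⟩ := mem_iUnion.1 hy
    exact (hL i).posDef y hi
  · obtain ⟨i, hi⟩ := mem_iUnion.1 hy
    exact (((hL i).smooth a b).contDiffAt ((hL i).opn.mem_nhds hi)).contDiffWithinAt
  · obtain ⟨i, hi⟩ := mem_iUnion.1 hx
    exact (hL i).eq x hi
  · obtain ⟨i, hi⟩ := mem_iUnion.1 hx
    exact (hL i).bnd x hi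

theorem locF_of (hg : PullRBC n m M g v c) (p : M) : ∃ (V : Set (Cn n)) (ψ : Cn n → M)
    (z : Cn n) (N : Set (Cn m)) (F : Cn n → Cn m) (h : Cn m → Matrix (Fin m) (Fin m) ℂ),
    z ∈ V ∧ ψ z = p ∧ LocF g v c V ψ N F h := by
  obtain ⟨V, ψ, z, N, F, h, h1, h2, h3, h4, h5, h6, h7, h8, h9, h10⟩ := hg p
  exact ⟨V, ψ, z, N, F, h, h2, h3, h1, h4, h5, h6, h7, h8, h9, h10⟩

end

/-- The centres. -/
theorem centres (k : ℕ) (t : ℕ) : ∃ c : Fin t → Cn k, ∀ (z : Cn k) i j, 0 < k →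
    z ∈ ball (c i) 2 → z ∈ ball (c j) 2 → i = j := by
  refine ⟨fun i _ => ((10 * (i : ℕ) : ℝ) : ℂ), fun z i j hk hi hj => ?_⟩
  by_contra hij
  have h1 : (10 : ℝ) ≤ ‖(fun _ => ((10 * (i : ℕ) : ℝ) : ℂ) : Cn k) -
      (fun _ => ((10 * (j : ℕ) : ℝ) : ℂ) : Cn k)‖ := by
    refine le_trans ?_ (norm_le_pi_norm _ (⟨0, hk⟩ : Fin k))
    have h2 : ((fun _ => ((10 * (i : ℕ) : ℝ) : ℂ) : Cn k) -
        (fun _ => ((10 * (j : ℕ) : ℝ) : ℂ) : Cn k)) ⟨0, hk⟩ =
        (((10 * (i : ℕ) : ℝ) - (10 * (j : ℕ) : ℝ) : ℝ) : ℂ) := by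
      simp
    rw [h2, Complex.norm_real, Real.norm_eq_abs]
    have h3 : (1 : ℝ) ≤ |((i : ℕ) : ℝ) - ((j : ℕ) : ℝ)| := by
      have h4 : ((i : ℕ) : ℤ) ≠ ((j : ℕ) : ℤ) := by
        intro h5
        apply hij
        exact Fin.ext (by exact_mod_cast h5)
      have h5 : (1 : ℤ) ≤ |((i : ℕ) : ℤ) - ((j : ℕ) : ℤ)| :=
        Int.one_le_abs (sub_ne_zero.2 h4)
      exact_mod_cast h5
    have h6 : (10 * ((i : ℕ) : ℝ) - 10 * ((j : ℕ) : ℝ)) =
        10 * (((i : ℕ) : ℝ) - ((j : ℕ) : ℝ)) := by ring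
    rw [h6, abs_mul, abs_of_pos (by norm_num : (0 : ℝ) < 10)]
    linarith
  rw [mem_ball, dist_eq_norm] at hi hj
  have h2 : (fun _ => ((10 * (i : ℕ) : ℝ) : ℂ) : Cn k) - (fun _ => ((10 * (j : ℕ) : ℝ) : ℂ) : Cn k) =
      (z - fun _ => ((10 * (j : ℕ) : ℝ) : ℂ)) - (z - fun _ => ((10 * (i : ℕ) : ℝ) : ℂ)) := by abel
  have h3 := norm_sub_le (z - fun _ => ((10 * (j : ℕ) : ℝ) : ℂ))
    (z - fun _ => ((10 * (i : ℕ) : ℝ) : ℂ))
  rw [← h2] at h3
  linarith

/-- UNIF. A parametrization with cocompact image on which `g = F^* h`. -/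
theorem unif (hPARH : S_PARH.{u, v}) {G : Type u} {M : Type v} [Group G] [MulAction G M]
    [TopologicalSpace M] [T2Space M] [ConnectedSpace M] [ChartedSpace (Fin n → ℂ) M]
    [IsManifold 𝓘(ℂ, Fin n → ℂ) ω M] {om g : M → Matrix (Fin n) (Fin n) ℂ} {v : M → ℝ} {c : ℝ}
    (hn : 0 < n) (hD : DataH n G M om) (hg : PullRBC n m M g v c) :
    ∃ (T : Set (Cn n)) (E : Cn n → M) (N : Set (Cn m)) (F : Cn n → Cn m)
      (h : Cn m → Matrix (Fin m) (Fin m) ℂ), LocF g v c T E N F h ∧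
      ∃ C ⊆ T, IsCompact C ∧ ∀ p : M, ∃ (γ : G), ∃ x ∈ C, γ • p = E x := by
  classical
  have hP4 := (hPARH hD).2.2.2.1
  have hch : ∀ p : M, ∃ (r s : ℝ) (ψ : Cn n → M) (F : Cn n → Cn m)
      (h : Cn m → Matrix (Fin m) (Fin m) ℂ), 0 < r ∧ r ≤ 1 ∧ s ≤ 1 ∧
      LocF g v c (ball 0 (2 * r)) ψ (ball 0 s) F h ∧ ψ 0 = p := by
    intro p
    obtain ⟨V, ψ, z, N, F, h, hz, hp, hL⟩ := locF_of hg p
    obtain ⟨s₁, hs₁, hsub₁⟩ := Metric.isOpen_iff.1 hL.opn _ (hL.maps hz)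
    have hc : ContinuousAt F z :=
      (hL.holo.differentiableAt (hL.par.1.1.mem_nhds hz)).continuousAt
    have hnh : V ∩ F ⁻¹' (ball (F z) (min s₁ 1)) ∈ 𝓝 z :=
      Filter.inter_mem (hL.par.1.1.mem_nhds hz)
        (hc.preimage_mem_nhds (ball_mem_nhds _ (by positivity)))
    obtain ⟨s, hs, hsub⟩ := Metric.mem_nhds_iff.1 hnh
    have hm0 : ∀ y ∈ ball (0 : Cn n) (2 * min (s / 2) 1), y + z ∈ ball z s := by
      intro y hy
      rw [mem_ball, dist_eq_norm]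
      rw [mem_ball_zero_iff] at hy
      have : min (s / 2) 1 ≤ s / 2 := min_le_left _ _
      rw [add_sub_cancel_right]
      linarith
    have hm : MapsTo (fun y => y + z) (ball (0 : Cn n) (2 * min (s / 2) 1)) V :=
      fun y hy => (hsub (hm0 y hy)).1
    refine ⟨min (s / 2) 1, min s₁ 1, ψ ∘ fun y => y + z, fun y => F (y + z) + -F z,
      fun y => h (y + - -F z), by positivity, min_le_right _ _, min_le_right _ _,
      hL.shift z (-F z) (par_shift hPARH hD _ hL.par isOpen_ball hm) hm isOpen_ball ?_ ?_, ?_⟩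
    · intro y hy
      refine hsub₁ ?_
      rw [mem_ball_zero_iff] at hy
      rw [mem_ball, dist_eq_norm]
      change ‖y + - -F z - F z‖ < s₁
      rw [neg_neg, add_sub_cancel_right]
      exact lt_of_lt_of_le hy (min_le_left _ _)
    · intro x hx
      have h1 := (hsub (hm0 x hx)).2
      rw [mem_preimage, mem_ball, dist_eq_norm] at h1
      rw [mem_ball_zero_iff, ← sub_eq_add_neg]
      exact h1
    · change ψ (0 + z) = p
      rw [zero_add, hp]
  choose r s ψ F h hr0 hr1 hs1 hS h0 using hch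
  obtain ⟨K, hK, hcov⟩ := hD.act.cocompact
  have hopen : ∀ p : M, IsOpen (ψ p '' ball 0 (r p)) := fun p =>
    hP4 _ (ψ p) (hS p).par _ (ball_subset_ball (by linarith [hr0 p])) isOpen_ball
  have hmem : ∀ p : M, p ∈ ψ p '' ball 0 (r p) := fun p => ⟨0, mem_ball_self (hr0 p), h0 p⟩
  obtain ⟨t, ht⟩ := hK.elim_finite_subcover (fun p : M => ψ p '' ball 0 (r p)) hopen
    (fun p _ => mem_iUnion.mpr ⟨p, hmem p⟩)
  obtain ⟨x₀⟩ := (inferInstance : Nonempty M)
  obtain ⟨γ₀, hγ₀⟩ := hcov x₀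
  have hpos : 0 < t.card := by
    obtain ⟨p, hp⟩ := mem_iUnion.mp (ht hγ₀)
    obtain ⟨hpt, -⟩ := mem_iUnion.mp hp
    exact Finset.card_pos.mpr ⟨p, hpt⟩
  obtain ⟨c', hc'⟩ := centres n t.card
  obtain ⟨d', hd'⟩ := centres m t.card
  have huniq : ∀ (z : Cn n) i j, z ∈ ball (c' i) 2 → z ∈ ball (c' j) 2 → i = j :=
    fun z i j => hc' z i j hn
  let ix : Cn n → Fin t.card := fun z =>
    if h : ∃ i, z ∈ ball (c' i) 2 then h.choose else ⟨0, hpos⟩
  let iy : Cn m → Fin t.card := fun z =>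
    if h : ∃ i, z ∈ ball (d' i) 2 then h.choose else ⟨0, hpos⟩
  have hix : ∀ (z : Cn n) i, z ∈ ball (c' i) 2 → ix z = i := by
    intro z i hz
    have hex : ∃ i, z ∈ ball (c' i) 2 := ⟨i, hz⟩
    have h1 : ix z = hex.choose := by
      simp only [ix]
      rw [dif_pos hex]
    rw [h1]
    exact huniq z _ _ hex.choose_spec hz
  have hiy : 0 < m → ∀ (z : Cn m) i, z ∈ ball (d' i) 2 → iy z = i := by
    intro hm z i hz
    have hex : ∃ i, z ∈ ball (d' i) 2 := ⟨i, hz⟩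
    have h1 : iy z = hex.choose := by
      simp only [iy]
      rw [dif_pos hex]
    rw [h1]
    exact hd' z _ _ hm hex.choose_spec hz
  let q : Fin t.card → M := fun i => t.equivFin.symm i
  let E : Cn n → M := fun x => ψ (q (ix x)) (x + -c' (ix x))
  let F' : Cn n → Cn m := fun x => F (q (ix x)) (x + -c' (ix x)) + d' (ix x)
  let h' : Cn m → Matrix (Fin m) (Fin m) ℂ := fun y => h (q (iy y)) (y + -d' (iy y))
  have hlt : ∀ i, 2 * r (q i) ≤ 2 := fun i => by linarith [hr1 (q i)]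
  have hlt' : ∀ i, s (q i) ≤ 2 := fun i => by linarith [hs1 (q i)]
  have hmm : ∀ i, MapsTo (fun y => y + -c' i) (ball (c' i) (2 * r (q i)))
      (ball (0 : Cn n) (2 * r (q i))) := by
    intro i y hy
    rw [mem_ball, dist_eq_norm] at hy
    rw [mem_ball_zero_iff]
    change ‖y + -c' i‖ < _
    rwa [← sub_eq_add_neg]
  have hmm' : ∀ i, MapsTo (fun y => y + -d' i) (ball (d' i) (s (q i)))
      (ball (0 : Cn m) (s (q i))) := by
    intro i y hy
    rw [mem_ball, dist_eq_norm] at hy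
    rw [mem_ball_zero_iff]
    change ‖y + -d' i‖ < _
    rwa [← sub_eq_add_neg]
  have hloc : ∀ i, LocF g v c (ball (c' i) (2 * r (q i))) E (ball (d' i) (s (q i))) F' h' := by
    intro i
    have hb : ∀ y ∈ ball (c' i) (2 * r (q i)), ix y = i := fun y hy =>
      hix _ i (ball_subset_ball (hlt i) hy)
    refine ((hS (q i)).shift (-c' i) (d' i)
      (par_shift hPARH hD _ (hS (q i)).par isOpen_ball (hmm i))
      (hmm i) isOpen_ball (hmm' i) (fun x hx => ?_)).congr (fun y hy => ?_) (fun y hy => ?_)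
      fun y hy => ?_
    · have h1 := (hS (q i)).maps (hmm i hx)
      rw [mem_ball_zero_iff] at h1
      rw [mem_ball, dist_eq_norm, add_sub_cancel_right]
      exact h1
    · show ψ (q (ix y)) (y + -c' (ix y)) = ψ (q i) (y + -c' i)
      rw [hb y hy]
    · show F (q (ix y)) (y + -c' (ix y)) + d' (ix y) = F (q i) (y + -c' i) + d' i
      rw [hb y hy]
    · rcases Nat.eq_zero_or_pos m with hm | hm
      · subst hm
        ext a
        exact a.elim0
      · show h (q (iy y)) (y + -d' (iy y)) = h (q i) (y + -d' i)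
        rw [hiy hm y i (ball_subset_ball (hlt' i) hy)]
  have hall := LocF.union hloc
  refine ⟨⋃ i, ball (c' i) (2 * r (q i)), E, ⋃ i, ball (d' i) (s (q i)), F', h', hall,
    ⋃ i, closedBall (c' i) (r (q i)), ?_, ?_, ?_⟩
  · refine iUnion_mono fun i => closedBall_subset_ball ?_
    linarith [hr0 (q i)]
  · exact isCompact_iUnion fun i => isCompact_closedBall _ _
  · intro p
    obtain ⟨γ, hγ⟩ := hcov p
    obtain ⟨q', hq⟩ := mem_iUnion.mp (ht hγ)
    obtain ⟨hqt, x, hx, hxe⟩ := mem_iUnion.mp hq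
    obtain ⟨i, hi⟩ : ∃ i, i = t.equivFin ⟨q', hqt⟩ := ⟨_, rfl⟩
    have h2 : q i = q' := by
      simp only [q, hi, Equiv.symm_apply_apply]
    have hz1 : x + c' i ∈ ball (c' i) (r (q i)) := by
      rw [mem_ball, dist_eq_norm, add_sub_cancel_right, h2]
      exact mem_ball_zero_iff.1 hx
    refine ⟨γ, x + c' i, mem_iUnion.2 ⟨i, ball_subset_closedBall hz1⟩, ?_⟩
    have h3 : ix (x + c' i) = i := hix _ i (ball_subset_ball (by linarith [hr1 (q i)]) hz1)
    change γ • p = ψ (q (ix (x + c' i))) (x + c' i + -c' (ix (x + c' i)))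
    rw [h3, add_neg_cancel_right, h2]
    exact hxe.symm

end Pool.Agent.Helper45.FM
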