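import Pool.Agent.Helper18.FM.Defs
import Pool.Agent.Helper45.FM.UNIF
import Pool.Agent.Helper82.HB.Cal
import Pool.Agent.Helper59.SP.WCH

/-! # FM: the connection of the metric along the map (CF) -/

open Complex Metric Set Filter Topology MeasureTheory
open scoped ContDiff ComplexConjugate ComplexOrder Manifold Matrix

namespace Pool.Agent.Helper45.FM

open Pool.Agent.Helper95.Lin Pool.Agent.Helper16.Abund Pool.Agent.Helper92.Orb
  Pool.Agent.Helper10.SP Pool.Agent.Helper95.RK Pool.Agent.Helper57.HS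
  Pool.Agent.Helper15.HS Pool.Agent.Helper10.HS Pool.Agent.Helper15.GS
  Pool.Agent.Helper82.HB Pool.Agent.Helper18.FM
open Pool.Agent.Helper45.HS (SmM cd_congr' cd_sum'' cd_mul'' cd_const'' posDef_det)
open Pool.Agent.Helper45.Stmt (push)

universe u v

variable {n m : ℕ}

/-- The matrix of the differential of `F`. -/
noncomputable def sg (F : Cn n → Cn m) (x : Cn n) : Matrix (Fin n) (Fin m) ℂ :=
  Matrix.of fun i a => push F x (Pi.single i 1) a

theorem push_eq (F : Cn n → Cn m) (x u : Cn n) : push F x u = u ᵥ* sg F x := by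
  have h1 : u = ∑ i, u i • (Pi.single i 1 : Cn n) := Pool.Agent.Helper22.Lin.eq_sum_single u
  have h2 : push F x u = ∑ i, u i • push F x (Pi.single i 1) := by
    unfold push
    conv_lhs => rw [h1]
    rw [map_sum]
    exact Finset.sum_congr rfl fun i _ => map_smul _ _ _
  rw [h2]
  funext a
  rw [Finset.sum_apply]
  exact Finset.sum_congr rfl fun i _ => rfl

section

variable {T : Set (Cn n)} {V : Set (Cn m)} {F : Cn n → Cn m}
  {hN : Cn m → Matrix (Fin m) (Fin m) ℂ}

theorem comp_holo (hF : DifferentiableOn ℂ F T) (a : Fin m) :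
    DifferentiableOn ℂ (fun x => F x a) T := by
  intro x hx
  exact (hasFDerivWithinAt_pi'.1 (hF x hx).hasFDerivWithinAt a).differentiableWithinAt

theorem sg_apply (hT : IsOpen T) (hF : DifferentiableOn ℂ F T) {x : Cn n} (hx : x ∈ T) (i : Fin n)
    (a : Fin m) : sg F x i a = fderiv ℂ (fun y => F y a) x (Pi.single i 1) := by
  have hd : DifferentiableAt ℂ F x := hF.differentiableAt (hT.mem_nhds hx)
  have h1 : fderiv ℂ (fun y => F y a) x = (ContinuousLinearMap.proj a).comp (fderiv ℂ F x) :=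
    fderiv_comp_proj hd a
  rw [h1]
  rfl
where
  fderiv_comp_proj {x : Cn n} (hd : DifferentiableAt ℂ F x) (a : Fin m) :
      fderiv ℂ (fun y => F y a) x =
        (ContinuousLinearMap.proj (R := ℂ) (φ := fun _ : Fin m => ℂ) a).comp (fderiv ℂ F x) :=
    ((ContinuousLinearMap.proj (R := ℂ) (φ := fun _ : Fin m => ℂ) a).hasFDerivAt.comp x
      hd.hasFDerivAt).fderiv

theorem cd_F (hT : IsOpen T) (hF : DifferentiableOn ℂ F T) {x : Cn n} (hx : x ∈ T) (i : Fin n)
    (a : Fin m) : cd i (fun y => F y a) x = 2 * sg F x i a := by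
  rw [sg_apply hT hF hx]
  exact Pool.Agent.Helper59.SP.cd_holo hT (comp_holo hF a) hx i

theorem sg_holo (hT : IsOpen T) (hF : DifferentiableOn ℂ F T) (i : Fin n) (a : Fin m) :
    DifferentiableOn ℂ (fun x => sg F x i a) T := by
  have h1 := (Pool.Agent.Helper99.RK.holo_cd hT (comp_holo hF a) i).const_mul (2⁻¹ : ℂ)
  refine h1.congr fun x hx => ?_
  show sg F x i a = 2⁻¹ * cd i (fun y => F y a) x
  rw [cd_F hT hF hx]
  ring

theorem sg_sym (hT : IsOpen T) (hF : DifferentiableOn ℂ F T) {x : Cn n} (hx : x ∈ T)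
    (k i : Fin n) (a : Fin m) : cdR k (sg F) x i a = cdR i (sg F) x k a := by
  have h1 : ∀ j l : Fin n, cd j (fun y => sg F y l a) x =
      2⁻¹ * cd j (cd l (fun y => F y a)) x := by
    intro j l
    have h2 : cd j (fun y => sg F y l a) x = cd j (fun y => 2⁻¹ * cd l (fun z => F z a) y) x :=
      (cd_congr' hT hx (fun y hy => by rw [cd_F hT hF hy]; ring) j).1
    rw [h2]
    have h3 := (cd_mul'' hT hx (f := fun _ => (2⁻¹ : ℂ)) (g := cd l (fun z => F z a))
      contDiffOn_const (Wirt.cd_smooth hT (holo_contDiffOn_real hT (comp_holo hF a)) l) j).1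
    rw [h3, (cd_const'' (2⁻¹ : ℂ) j).1]
    ring
  show cd k (fun y => sg F y i a) x = cd i (fun y => sg F y k a) x
  have hs := holo_contDiffOn_real hT (comp_holo hF a)
  rw [h1, h1, ((Wirt.wirt T hT _ _ hs hs).2.2.2.2.1 k i x hx).1]

theorem chain_cd (hT : IsOpen T) (hV : IsOpen V) (hF : DifferentiableOn ℂ F T) (hm : MapsTo F T V)
    {f : Cn m → ℂ} (hf : ContDiffOn ℝ ∞ f V) {x : Cn n} (hx : x ∈ T) (l : Fin n) :
    cd l (fun y => f (F y)) x = ∑ j, sg F x l j * cd j f (F x) :=
  (Pool.Agent.Helper59.SP.cd_chain hV hT hF hm hf hx l).1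

theorem chain_cdb (hT : IsOpen T) (hV : IsOpen V) (hF : DifferentiableOn ℂ F T) (hm : MapsTo F T V)
    {f : Cn m → ℂ} (hf : ContDiffOn ℝ ∞ f V) {x : Cn n} (hx : x ∈ T) (l : Fin n) :
    cdb l (fun y => f (F y)) x = ∑ j, conj (sg F x l j) * cdb j f (F x) :=
  (Pool.Agent.Helper59.SP.cd_chain hV hT hF hm hf hx l).2

theorem smooth_comp (hT : IsOpen T) (hF : DifferentiableOn ℂ F T) (hm : MapsTo F T V)
    {f : Cn m → ℂ} (hf : ContDiffOn ℝ ∞ f V) : ContDiffOn ℝ ∞ (fun y => f (F y)) T :=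
  hf.comp (holo_contDiffOn_real hT hF) hm

theorem gam_eq (hT : IsOpen T) (hV : IsOpen V) (hF : DifferentiableOn ℂ F T) (hm : MapsTo F T V)
    (hs : SmM hN V) {x : Cn n} (hx : x ∈ T) (k : Fin n) :
    GamE (fun y => hN (F y)) k x = ∑ a, sg F x k a • GamE hN a (F x) := by
  unfold GamE
  have h1 : cdM k (fun y => hN (F y)) x = ∑ a, sg F x k a • cdM a hN (F x) := by
    ext i j
    rw [Matrix.sum_apply]
    exact chain_cd hT hV hF hm (hs i j) hx k
  rw [h1, Finset.sum_mul]
  exact Finset.sum_congr rfl fun a _ => Matrix.smul_mul _ _ _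

theorem cf_of (hT : IsOpen T) (hV : IsOpen V) (hF : DifferentiableOn ℂ F T) (hm : MapsTo F T V)
    (hp : ∀ y ∈ V, (hN y).PosDef) (hs : SmM hN V) :
    CF T (sg F) (fun x => hN (F x)) (fun a x => GamE hN a (F x)) (fun a b x => RE hN a b (F x)) where
  smG := fun a p q => smooth_comp hT hF hm (gamE_smooth hV hs hp a p q)
  cC := fun a b p q => (smooth_comp hT hF hm (RE_smooth hV hs hp a b p q)).continuousOn
  gam := fun x hx k => gam_eq hT hV hF hm hs hx k
  cur := fun x hx k l => by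
    ext i j
    have h1 : RE (fun y => hN (F y)) k l x i j =
        cdb l (fun y => ∑ a, sg F y k a * GamE hN a (F y) i j) x := by
      show cdb l (fun y => GamE (fun y => hN (F y)) k y i j) x = _
      refine (cd_congr' hT hx (fun y hy => ?_) l).2
      rw [gam_eq hT hV hF hm hs hy k, Matrix.sum_apply]
      exact Finset.sum_congr rfl fun a _ => rfl
    rw [h1, (cd_sum'' hT hx Finset.univ (fun a _ =>
      (holo_contDiffOn_real hT (sg_holo hT hF k a)).mul
        (smooth_comp hT hF hm (gamE_smooth hV hs hp a i j))) l).2, Matrix.sum_apply]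
    refine Finset.sum_congr rfl fun a _ => ?_
    rw [Matrix.sum_apply, (cd_mul'' hT hx (holo_contDiffOn_real hT (sg_holo hT hF k a))
      (smooth_comp hT hF hm (gamE_smooth hV hs hp a i j)) l).2,
      Pool.Agent.Helper99.RK.holo_cdb hT (sg_holo hT hF k a) l hx, zero_mul, zero_add,
      chain_cdb hT hV hF hm (gamE_smooth hV hs hp a i j) hx l, Finset.mul_sum]
    refine Finset.sum_congr rfl fun b _ => ?_
    show sg F x k a * (conj (sg F x l b) * cdb b (fun y => GamE hN a y i j) (F x)) =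
      sg F x k a * conj (sg F x l b) * cdb b (fun y => GamE hN a y i j) (F x)
    ring
  dbG := fun x hx a l => by
    ext i j
    rw [Matrix.sum_apply]
    exact chain_cdb hT hV hF hm (gamE_smooth hV hs hp a i j) hx l
  her := fun x hx a b => RE_herm hV hs hp (hm hx) a b
  sym := fun x hx k i a => sg_sym hT hF hx k i a

end

/-! ## The form -/

section

variable {M : Type v} [TopologicalSpace M] [ChartedSpace (Fin n → ℂ) M]
  {g : M → Matrix (Fin n) (Fin n) ℂ} {v : M → ℝ} {c : ℝ} {T : Set (Cn n)} {E : Cn n → M}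
  {V : Set (Cn m)} {F : Cn n → Cn m} {hN : Cn m → Matrix (Fin m) (Fin m) ℂ}

theorem hermi_vec {p q : ℕ} (σ : Matrix (Fin p) (Fin q) ℂ) (A : Matrix (Fin q) (Fin q) ℂ)
    (u w : Fin p → ℂ) : hermi (σ * A * σᴴ) u w = hermi A (u ᵥ* σ) (w ᵥ* σ) := by
  have e1 : ∀ {r : ℕ} (B : Matrix (Fin r) (Fin r) ℂ) (u w : Fin r → ℂ),
      hermi B u w = u ⬝ᵥ B *ᵥ star w := by
    intro r B u w
    unfold hermi dotProduct Matrix.mulVec dotProduct
    refine Finset.sum_congr rfl fun i _ => ?_
    rw [Finset.mul_sum]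
    refine Finset.sum_congr rfl fun j _ => ?_
    simp only [Pi.star_apply, Complex.star_def]
    ring
  have e2 : σᴴ *ᵥ star w = star (w ᵥ* σ) := (Matrix.star_vecMul _ _).symm
  rw [e1, e1, ← Matrix.mulVec_mulVec, ← Matrix.mulVec_mulVec, e2, Matrix.dotProduct_mulVec]

theorem pm_gS (hL : LocF g v c T E V F hN) {x : Cn n} (hx : x ∈ T) :
    pm n g E x = gS (sg F) (fun y => hN (F y)) x := by
  have h1 : ∀ u w, hermi (pm n g E x) u w = hermi (gS (sg F) (fun y => hN (F y)) x) u w := by
    intro u w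
    unfold gS
    rw [hL.eq x hx u w, hermi_vec, push_eq, push_eq]
  ext i j
  have h2 := h1 (Pi.single i 1) (Pi.single j 1)
  have h3 : ∀ B : Matrix (Fin n) (Fin n) ℂ, hermi B (Pi.single i 1) (Pi.single j 1) = B i j := by
    intro B
    unfold hermi
    rw [Finset.sum_eq_single i, Finset.sum_eq_single j]
    · simp
    · intro b _ hb
      simp [Pi.single_eq_of_ne hb]
    · intro h
      exact absurd (Finset.mem_univ _) h
    · intro b _ hb
      simp [Pi.single_eq_of_ne hb]
    · intro h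
      exact absurd (Finset.mem_univ _) h
  rwa [h3, h3] at h2

end

end Pool.Agent.Helper45.FM
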