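import Pool.Agent.Helper18.FM.GoalsC
import Pool.Agent.Helper27.TRB.Vol
import Pool.Agent.Helper45.RBC.AsmR

/-! # FM: the data of HB (FOUT) -/

open Complex Metric Set Filter Topology MeasureTheory
open scoped ContDiff ComplexConjugate ComplexOrder Manifold Matrix

namespace Pool.Agent.Helper45.FM

open Pool.Agent.Helper95.Lin Pool.Agent.Helper16.Abund Pool.Agent.Helper92.Orb
  Pool.Agent.Helper10.SP Pool.Agent.Helper95.RK Pool.Agent.Helper57.HS
  Pool.Agent.Helper15.HS Pool.Agent.Helper10.HS Pool.Agent.Helper15.GS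
  Pool.Agent.Helper57.RBC Pool.Agent.Helper45.RBC Pool.Agent.Helper57.HX
  Pool.Agent.Helper82.HB
open Pool.Agent.Helper45.HS (SmM)
open Pool.Agent.Helper16.HS.AYTP (her_ket)
open Pool.Agent.Helper18.FM

universe u

theorem fout (hPUE : S_PUE.{u}) (hVOLP : S_VOLP.{u}) (hKAPI : S_KAPI.{u}) (hRHOI : S_RHOI.{u})
    (hFEX : S_FEX.{u}) (hFPV : S_FPV.{u}) (hFNK : S_FNK.{u}) (hFVP : S_FVP.{u})
    (hFB3 : S_FB3.{u}) : S_FOUT.{u} := by
  intro n m hn T G _ R H σ h χ c ψ D Γ C hCF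
  have hK := D.ket
  obtain ⟨κ, hκ⟩ := hPUE T R hK.et
  obtain ⟨r, X, P, s, N, φ, H', ε, Q, hL⟩ := hFPV hn T R H σ h χ c ψ D Γ C hCF κ hκ
  obtain ⟨-, k, p, hk, hp, hV⟩ := hVOLP T R H hK κ hκ (hFEX T R H σ h χ c ψ D H hK)
  have hkr : k ≤ r := hFNK hn T R H σ h χ c ψ D κ hκ k p hp hV r X P s N φ H' ε Q hL
  have hvol := hFVP hn T R H σ h χ c ψ D κ hκ k p hp hV r X P s N φ H' ε Q hL hkr
  obtain ⟨ψ', hψ', hpos⟩ := hFB3 hn T R H σ h χ c ψ D r P hL.par fun κ' hκ' => by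
    obtain ⟨h1, h2, -⟩ := hRHOI T R H hK.et (her_ket hK)
    rw [hKAPI T R hK.et κ' κ hκ' hκ (fun x =>
      (((1 + c : ℝ) : ℂ) • rho H x + gS (fun y => σ y * P y) h x).det.re) ?_ ?_]
    · exact hvol
    · have h3 : SmM (fun x => ((1 + c : ℝ) : ℂ) • rho H x + gS (fun y => σ y * P y) h x) T :=
        SmM.add (X := fun x => ((1 + c : ℝ) : ℂ) • rho H x)
          (Pool.Agent.Helper97.HS.chf_sm hK.et.isOpen h1 (1 + c)).smooth
          hL.par.par.chf.smooth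
      exact Complex.continuous_re.comp_continuousOn h3.det.continuousOn
    · exact fun U τ hA x hx => det_density (invH_add
        (Pool.Agent.Helper97.HS.invH_sm h2 ((1 + c : ℝ) : ℂ)) hL.par.par.inv) U τ hA x hx
  exact ⟨P, ψ', D.ket, hL.par.sdP, hψ', hpos⟩

end Pool.Agent.Helper45.FM
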