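import Pool.Agent.Helper18.FM.GoalsC
import Pool.Agent.Helper45.RBC.AsmM

/-! # FM: assembly of the main theorem from its parts -/

open Complex Metric Set Filter Topology MeasureTheory
open scoped ContDiff ComplexConjugate ComplexOrder Manifold Matrix

namespace Pool.Agent.Helper45.FM

open Pool.Agent.Helper95.Lin Pool.Agent.Helper16.Abund Pool.Agent.Helper92.Orb
  Pool.Agent.Helper10.SP Pool.Agent.Helper95.RK Pool.Agent.Helper57.HS
  Pool.Agent.Helper15.HS Pool.Agent.Helper10.HS Pool.Agent.Helper15.GS Pool.Agent.Helper57.RBC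
  Pool.Agent.Helper10.RBC Pool.Agent.Helper15.RK Pool.Agent.Helper10.RK Pool.Agent.Helper15.RBC
  Pool.Agent.Helper82.HB Pool.Agent.Helper57.HX
open Pool.Agent.Helper18.FM

universe u v

theorem mainf (hFUN : S_FUN.{u, v}) (hFLK : S_FLK.{u, v}) (hFOUT : S_FOUT.{u})
    (hMAINP : Pool.Agent.Helper27.TRB.S_MAINP.{u, v}) : S_MAINF.{u, v} := by
  intro n m G M _ _ _ _ _ _ _ om g hD hgi v hv hvi c hc hsem hpos hg
  rcases Nat.eq_zero_or_pos n with hn | hn
  · subst hn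
    exact orb_zero
  obtain ⟨T, E, σ, h, Γ, C, hE, hC, hσ, hh, hhs, hgE, hCF, hTRS⟩ := hFUN hn hD v c hv hg
  obtain ⟨K, -, hF⟩ := hFLK hn hD hgi v hv hvi c hc hsem hpos T E σ h hE hC hσ hh hhs hgE hTRS
  obtain ⟨P, ψ', hH⟩ := hFOUT hn T _ _ _ _ _ _ _ hF _ _ hCF
  exact hMAINP hn hD T E hE hC _ _ _ _ hH

end Pool.Agent.Helper45.FM
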